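import Mathlib

namespace Pool.Agent.Results.MP_6fd06d_co.NotRobust

open Equiv OnePoint

/-- PGL(2,K) as a permutation group on the projective line -/
def PGL (K : Type) [Field K] [DecidableEq K] : Subgroup (Perm (OnePoint K)) :=
  (MulAction.toPermHom (GL (Fin 2) K) (OnePoint K)).range

/-- derangements in G -/
def Der {Ω : Type} (G : Subgroup (Perm Ω)) : Set G := {g | ∀ x, g.1 x ≠ x}

/-- Cayley graph -/
def Cay {G : Type} [Group G] (S : Set G) : SimpleGraph G :=
  SimpleGraph.fromRel fun g h => h * g⁻¹ ∈ S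

instance : Fact (Nat.Prime 3) := ⟨by norm_num⟩

def mob (a b c d : ZMod 3) : Option (ZMod 3) → Option (ZMod 3)
  | none => if c = 0 then none else Option.some (a * c)
  | Option.some k => if c * k + d = 0 then none else Option.some ((a * k + b) * (c * k + d))

lemma all : ∀ σ : Perm (Option (ZMod 3)), ∃ a b c d : ZMod 3, a * d - b * c ≠ 0 ∧
    ∀ x, mob a b c d x = σ x := by decide +kernel

lemma top (σ : Perm (OnePoint (ZMod 3))) : σ ∈ PGL (ZMod 3) := by
  obtain ⟨a, b, c, d, h, e⟩ := all σ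
  have inv : ∀ x y : ZMod 3, x / y = x * y := fun x y => by
    rw [div_eq_mul_inv]; congr 1; revert y; decide +kernel
  refine ⟨Matrix.GeneralLinearGroup.mkOfDetNeZero !![a, b; c, d] (by simpa [Matrix.det_fin_two] using h),
    Equiv.ext fun x => Eq.trans ?_ (e x)⟩
  induction x using OnePoint.rec with
  | infty => exact (smul_infty_eq_ite _).trans (by rw [inv]; rfl)
  | coe k => exact smul_some_eq_ite.trans (by rw [inv]; rfl)

lemma cyc : ∀ i j : Option (ZMod 3), i ≠ j → ∃ σ : Perm (Option (ZMod 3)),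
    (∀ x, σ x ≠ x) ∧ σ i = j ∧ Perm.sign σ ≠ 1 := by decide +kernel

/-- PGL(2,3) is not strict EKR robust. -/
theorem result : ∃ D : Set (PGL (ZMod 3)), D ⊆ Der _ ∧ (∀ g ∈ D, g⁻¹ ∈ D) ∧
    (∀ i j, i ≠ j → ¬ {g ∈ Der _ | g.1 i = j} ∪ {g ∈ Der _ | g.1 j = i} ⊆ D) ∧
    (Cay (Der _ \ D)).indepNum ≠ 3 * (3 - 1) := by
  let : Fintype (OnePoint (ZMod 3)) := inferInstanceAs (Fintype (Option (ZMod 3)))
  let : DecidableEq (OnePoint (ZMod 3)) := inferInstanceAs (DecidableEq (Option (ZMod 3)))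
  refine ⟨{g ∈ Der _ | Perm.sign g.1 = 1}, fun _ h => h.1, fun g h => ⟨fun x e => ?_, ?_⟩,
    fun i j hij h => ?_, fun h => ?_⟩
  · exact h.1 x ((Perm.inv_eq_iff_eq.mp e).symm)
  · simpa using h.2
  · obtain ⟨σ, h1, h2, h3⟩ := cyc i j hij
    exact h3 (h (a := ⟨σ, top σ⟩) (Or.inl ⟨h1, h2⟩)).2
  · let T : Finset (Perm (OnePoint (ZMod 3))) := Finset.univ.filter fun σ => Perm.sign σ = 1
    have hT : T.card = 12 := by decide +kernel
    have := SimpleGraph.IsIndepSet.card_le_indepNum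
      (G := Cay (Der _ \ {g ∈ Der (PGL (ZMod 3)) | Perm.sign g.1 = 1}))
      (t := T.map ⟨fun σ => ⟨σ, top σ⟩, fun _ _ e => congrArg Subtype.val e⟩) (by
        intro g hg k hk _ hA
        simp only [Finset.coe_map, Set.mem_image, Finset.mem_coe, T, Finset.mem_filter] at hg hk
        obtain ⟨g, ⟨-, hg⟩, rfl⟩ := hg
        obtain ⟨k, ⟨-, hk⟩, rfl⟩ := hk
        rcases hA.2 with h | h <;> exact h.2 ⟨h.1, by simp [hg, hk]⟩)
    rw [h, Finset.card_map, hT] at this
    omega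

end Pool.Agent.Results.MP_6fd06d_co.NotRobust
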